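import Pool.Agent.Helper32.OIP.Goals

/-! # Packet OIP-E10: few branching permutations -/

set_option autoImplicit false

namespace Pool.Agent.Helper56.OIP

open MeasureTheory Pool.Agent.Helper32.OIP Pool.Agent.Helper58.Orb
open Finset

variable {D : Type} [Fintype D] [DecidableEq D]

lemma sum_supp (F : Finset (Equiv.Perm D)) (h : Equiv.Perm D → ℝ) :
    ∑ s, ∑ t ∈ univ.erase s, ∑ σ ∈ F.filter (fun σ => σ s = t), h σ =
      ∑ σ ∈ F, (σ.support.card : ℝ) * h σ := by
  have e1 : ∀ s : D, ∑ t ∈ univ.erase s, ∑ σ ∈ F.filter (fun σ => σ s = t), h σ =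
      ∑ σ ∈ F, if σ s ≠ s then h σ else 0 := by
    intro s
    simp_rw [Finset.sum_filter]
    rw [Finset.sum_comm]
    refine Finset.sum_congr rfl fun σ _ => ?_
    rw [Finset.sum_ite_eq]
    simp
  simp_rw [e1]
  rw [Finset.sum_comm]
  refine Finset.sum_congr rfl fun σ _ => ?_
  rw [← Finset.sum_filter, Finset.sum_const, nsmul_eq_mul]
  congr 2

omit [Fintype D] in
lemma isSwap_eq {σ : Equiv.Perm D} (h : σ.IsSwap) {s t : D} (hst : s ≠ t) (hs : σ s = t) :
    σ = Equiv.swap s t := by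
  obtain ⟨x, y, hxy, rfl⟩ := h
  rw [Equiv.swap_apply_def] at hs
  split_ifs at hs with h1 h2
  · subst h1; subst hs; rfl
  · subst h2; subst hs; exact Equiv.swap_comm _ _
  · exact absurd hs hst

lemma not_isSwap_one : ¬ (1 : Equiv.Perm D).IsSwap := by
  intro h
  have := Equiv.Perm.card_support_eq_two.2 h
  simp at this

lemma three_le {σ : Equiv.Perm D} (h1 : σ ≠ 1) (h2 : ¬ σ.IsSwap) : 3 ≤ σ.support.card := by
  have a := Equiv.Perm.two_le_card_support_of_ne_one h1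
  have b : σ.support.card ≠ 2 := fun h => h2 (Equiv.Perm.card_support_eq_two.1 h)
  omega

lemma split_sum (W B : Finset (Equiv.Perm D)) (hW : ∀ σ, σ ∈ W ↔ σ.IsSwap)
    (hB : ∀ σ, σ ∈ B ↔ (σ ≠ 1 ∧ ¬ σ.IsSwap)) (f : Equiv.Perm D → ℝ) :
    ∑ σ, f σ = f 1 + ∑ σ ∈ W, f σ + ∑ σ ∈ B, f σ := by
  classical
  rw [← Finset.sum_filter_add_sum_filter_not univ (fun σ : Equiv.Perm D => σ.IsSwap) f]
  have e1 : univ.filter (fun σ : Equiv.Perm D => σ.IsSwap) = W := by
    ext σ; simp [hW]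
  have e2 : univ.filter (fun σ : Equiv.Perm D => ¬ σ.IsSwap) = insert 1 B := by
    ext σ
    simp only [mem_filter, mem_univ, true_and, mem_insert, hB]
    by_cases h : σ = 1
    · subst h; simp [not_isSwap_one]
    · simp [h]
  rw [e1, e2, Finset.sum_insert (by simp [hB])]
  ring

lemma gibbs {x y : ℝ} (hx : 0 ≤ x) (hy : 0 < y) :
    Real.negMulLog x ≤ - x * Real.log y + (y - x) := by
  unfold Real.negMulLog
  rcases hx.eq_or_lt with rfl | hx
  · simp [hy.le]
  · have h := Real.log_le_sub_one_of_pos (div_pos hy hx)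
    rw [Real.log_div hy.ne' hx.ne'] at h
    have h2 := mul_le_mul_of_nonneg_left h hx.le
    have h3 : x * (y / x - 1) = y - x := by field_simp
    rw [h3] at h2
    nlinarith

lemma neg_low {x : ℝ} (hx : 0 < x) : x * (1 - x) ≤ Real.negMulLog x := by
  unfold Real.negMulLog
  have h := Real.log_le_sub_one_of_pos hx
  nlinarith

lemma slope {p q δ : ℝ} (hp : 0 ≤ p) (hpq : p ≤ q) (hq : q ≤ δ) :
    Real.negMulLog p + (q - p) * (- Real.log δ - 1) ≤ Real.negMulLog q := by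
  rcases hp.eq_or_lt with rfl | hp0
  · rcases hpq.eq_or_lt with rfl | hq0
    · simp
    · have h : Real.log q ≤ Real.log δ := Real.log_le_log hq0 hq
      unfold Real.negMulLog
      simp only [neg_zero, zero_mul, zero_add, sub_zero]
      nlinarith
  · have hq0 : 0 < q := lt_of_lt_of_le hp0 hpq
    have h : Real.log q ≤ Real.log δ := Real.log_le_log hq0 hq
    have h1 := gibbs hp0.le hq0
    have h2 : (q - p) * Real.log q ≤ (q - p) * Real.log δ :=
      mul_le_mul_of_nonneg_left h (by linarith)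
    unfold Real.negMulLog at *
    nlinarith

/-- the main inequality -/
lemma main_ineq (p : Equiv.Perm D → ℝ) (hp : ∀ σ, 0 ≤ p σ) (hp1 : ∑ σ, p σ = 1)
    (hH : ∑ s, ∑ t, Real.negMulLog (∑ σ ∈ univ.filter (fun σ : Equiv.Perm D => σ s = t), p σ)
      ≤ 2 * ∑ σ, Real.negMulLog (p σ))
    (W B : Finset (Equiv.Perm D)) (hW : ∀ σ, σ ∈ W ↔ σ.IsSwap)
    (hB : ∀ σ, σ ∈ B ↔ (σ ≠ 1 ∧ ¬ σ.IsSwap))
    (δ ρ : ℝ) (hδ : δ = 1 - p 1) (hρ : ρ = ∑ σ ∈ B, p σ) (hρ0 : 0 < ρ)
    (hδe : δ ≤ Real.exp (-1)) :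
    0 ≤ (Fintype.card D : ℝ) * δ ^ 2 + 2 * ρ * (1 + 3 / 2 * Real.log δ - Real.log ρ +
      Real.log (Fintype.card D).factorial) := by
  classical
  have hsp := split_sum W B hW hB
  have hWs : ∑ σ ∈ W, p σ = δ - ρ := by
    have := hsp p
    rw [hp1] at this
    rw [hδ, hρ]; linarith
  have hW0 : 0 ≤ ∑ σ ∈ W, p σ := Finset.sum_nonneg fun σ _ => hp σ
  have hδρ : ρ ≤ δ := by linarith
  have hδ0 : 0 < δ := lt_of_lt_of_le hρ0 hδρ
  have hδ1 : δ < 1 := by
    refine lt_of_le_of_lt hδe ?_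
    rw [Real.exp_lt_one_iff] 
    norm_num
  have hlog : 0 ≤ - Real.log δ - 1 := by
    have := Real.log_le_log hδ0 hδe
    rw [Real.log_exp] at this
    linarith
  -- the numbers `Q s t`
  set Q : D → D → ℝ := fun s t => ∑ σ ∈ univ.filter (fun σ : Equiv.Perm D => σ s = t), p σ with hQ
  have hQ0 : ∀ s t, 0 ≤ Q s t := fun s t => Finset.sum_nonneg fun σ _ => hp σ
  have hQsum : ∀ s, ∑ t, Q s t = 1 := by
    intro s
    rw [← hp1]
    exact Finset.sum_fiberwise univ (fun σ : Equiv.Perm D => σ s) p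
  set q : D → ℝ := fun s => ∑ t ∈ univ.erase s, Q s t with hq
  have hqs : ∀ s, Q s s + q s = 1 := by
    intro s
    rw [← hQsum s, hq]
    exact Finset.add_sum_erase univ (Q s) (mem_univ s)
  have hQss : ∀ s, p 1 ≤ Q s s := by
    intro s
    exact Finset.single_le_sum (f := p) (fun σ _ => hp σ) (by simp)
  have hqδ : ∀ s, q s ≤ δ := by
    intro s
    have := hqs s
    have := hQss s
    rw [hδ]; linarith
  have hq0 : ∀ s, 0 ≤ q s := fun s => Finset.sum_nonneg fun t _ => hQ0 s t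
  -- sum of the `q s`
  have hqsum : 2 * δ + ρ ≤ ∑ s, q s := by
    have e1 : ∑ s, q s = ∑ σ, (σ.support.card : ℝ) * p σ := by
      rw [hq]
      exact sum_supp univ p
    rw [e1, hsp]
    have e2 : ∑ σ ∈ W, (σ.support.card : ℝ) * p σ = 2 * (δ - ρ) := by
      rw [← hWs, Finset.mul_sum]
      refine Finset.sum_congr rfl fun σ hσ => ?_
      rw [Equiv.Perm.card_support_eq_two.2 ((hW σ).1 hσ)]
      norm_num
    have e3 : 3 * ρ ≤ ∑ σ ∈ B, (σ.support.card : ℝ) * p σ := by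
      rw [hρ, Finset.mul_sum]
      refine Finset.sum_le_sum fun σ hσ => ?_
      refine mul_le_mul_of_nonneg_right ?_ (hp σ)
      exact_mod_cast three_le ((hB σ).1 hσ).1 ((hB σ).1 hσ).2
    rw [e2]
    simp only [Equiv.Perm.support_one, card_empty, Nat.cast_zero, zero_mul]
    linarith
  -- the diagonal terms
  have hdiag : ∑ s, q s - (Fintype.card D : ℝ) * δ ^ 2 ≤ ∑ s, Real.negMulLog (Q s s) := by
    have e1 : ∑ s, q s - (Fintype.card D : ℝ) * δ ^ 2 = ∑ s, (q s - δ ^ 2) := by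
      rw [Finset.sum_sub_distrib, Finset.sum_const, nsmul_eq_mul, Finset.card_univ]
    rw [e1]
    refine Finset.sum_le_sum fun s _ => ?_
    have h1 : Q s s = 1 - q s := by linarith [hqs s]
    have h2 : 0 < Q s s := by linarith [hqδ s]
    have h3 := neg_low h2
    have h4 : q s ^ 2 ≤ δ ^ 2 := pow_le_pow_left₀ (hq0 s) (hqδ s) 2
    rw [h1] at h3 ⊢
    nlinarith
  -- the off-diagonal terms
  set R : D → D → ℝ := fun s t => ∑ σ ∈ B.filter (fun σ : Equiv.Perm D => σ s = t), p σ with hR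
  have hWf : ∀ (f : Equiv.Perm D → ℝ) (s t : D), s ≠ t →
      ∑ σ ∈ W.filter (fun σ : Equiv.Perm D => σ s = t), f σ = f (Equiv.swap s t) := by
    intro f s t hst
    have : W.filter (fun σ : Equiv.Perm D => σ s = t) = {Equiv.swap s t} := by
      ext σ
      simp only [mem_filter, mem_singleton, hW]
      constructor
      · rintro ⟨h1, h2⟩
        exact isSwap_eq h1 hst h2
      · rintro rfl
        exact ⟨⟨s, t, hst, rfl⟩, Equiv.swap_apply_left s t⟩
    rw [this, Finset.sum_singleton]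
  have hQR : ∀ s t, s ≠ t → Q s t = p (Equiv.swap s t) + R s t := by
    intro s t hst
    rw [hQ, hR, ← hWf p s t hst]
    simp only
    rw [← Finset.sum_filter_add_sum_filter_not (univ.filter (fun σ : Equiv.Perm D => σ s = t))
      (fun σ : Equiv.Perm D => σ.IsSwap) p]
    congr 1
    · refine Finset.sum_congr ?_ fun _ _ => rfl
      ext σ
      simp [hW, and_comm]
    · refine Finset.sum_congr ?_ fun _ _ => rfl
      ext σ
      simp only [mem_filter, mem_univ, true_and, hB]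
      constructor
      · rintro ⟨h1, h2⟩
        refine ⟨⟨?_, h2⟩, h1⟩
        rintro rfl
        exact hst h1
      · rintro ⟨⟨_, h2⟩, h1⟩
        exact ⟨h1, h2⟩
  have hoff : 2 * ∑ σ ∈ W, Real.negMulLog (p σ) + 3 * ρ * (- Real.log δ - 1) ≤
      ∑ s, ∑ t ∈ univ.erase s, Real.negMulLog (Q s t) := by
    have e1 : ∑ s, ∑ t ∈ univ.erase s, (Real.negMulLog (p (Equiv.swap s t)) +
        R s t * (- Real.log δ - 1)) ≤ ∑ s, ∑ t ∈ univ.erase s, Real.negMulLog (Q s t) := by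
      refine Finset.sum_le_sum fun s _ => Finset.sum_le_sum fun t ht => ?_
      have hst : s ≠ t := fun h => by simp [h] at ht
      have hR0 : 0 ≤ R s t := Finset.sum_nonneg fun σ _ => hp σ
      have h1 : R s t = Q s t - p (Equiv.swap s t) := by rw [hQR s t hst]; ring
      rw [h1]
      refine slope (hp _) (by linarith) ?_
      refine le_trans ?_ (hqδ s)
      exact Finset.single_le_sum (f := Q s) (fun t _ => hQ0 s t) ht
    refine le_trans ?_ e1
    have e2 : ∑ s, ∑ t ∈ univ.erase s, Real.negMulLog (p (Equiv.swap s t)) =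
        2 * ∑ σ ∈ W, Real.negMulLog (p σ) := by
      have e3 := sum_supp W (fun σ => Real.negMulLog (p σ))
      have e4 : ∑ s, ∑ t ∈ univ.erase s, Real.negMulLog (p (Equiv.swap s t)) =
          ∑ s, ∑ t ∈ univ.erase s, ∑ σ ∈ W.filter (fun σ => σ s = t), Real.negMulLog (p σ) := by
        refine Finset.sum_congr rfl fun s _ => Finset.sum_congr rfl fun t ht => ?_
        have hst : s ≠ t := fun h => by simp [h] at ht
        rw [hWf (fun σ => Real.negMulLog (p σ)) s t hst]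
      rw [e4, e3, Finset.mul_sum]
      refine Finset.sum_congr rfl fun σ hσ => ?_
      rw [Equiv.Perm.card_support_eq_two.2 ((hW σ).1 hσ)]
      norm_num
    have e5 : 3 * ρ ≤ ∑ s, ∑ t ∈ univ.erase s, R s t := by
      rw [hR]
      simp only
      rw [sum_supp B p, hρ, Finset.mul_sum]
      refine Finset.sum_le_sum fun σ hσ => ?_
      refine mul_le_mul_of_nonneg_right ?_ (hp σ)
      exact_mod_cast three_le ((hB σ).1 hσ).1 ((hB σ).1 hσ).2
    have e6 : ∑ s, ∑ t ∈ univ.erase s, (Real.negMulLog (p (Equiv.swap s t)) +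
        R s t * (- Real.log δ - 1)) = 2 * ∑ σ ∈ W, Real.negMulLog (p σ) +
        (∑ s, ∑ t ∈ univ.erase s, R s t) * (- Real.log δ - 1) := by
      rw [← e2, Finset.sum_mul, ← Finset.sum_add_distrib]
      refine Finset.sum_congr rfl fun s _ => ?_
      rw [Finset.sum_mul, ← Finset.sum_add_distrib]
    rw [e6]
    have := mul_le_mul_of_nonneg_right e5 hlog
    linarith
  -- the left side
  have hLHS : ∑ s, ∑ t, Real.negMulLog (Q s t) =
      ∑ s, Real.negMulLog (Q s s) + ∑ s, ∑ t ∈ univ.erase s, Real.negMulLog (Q s t) := by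
    rw [← Finset.sum_add_distrib]
    refine Finset.sum_congr rfl fun s _ => ?_
    exact (Finset.add_sum_erase univ (fun t => Real.negMulLog (Q s t)) (mem_univ s)).symm
  -- the right side
  have hN : (0 : ℝ) < (Fintype.card D).factorial := by exact_mod_cast Nat.factorial_pos _
  have hBr : ∑ σ ∈ B, Real.negMulLog (p σ) ≤
      - ρ * Real.log ρ + ρ * Real.log (Fintype.card D).factorial := by
    obtain ⟨N, hNd⟩ : ∃ N : ℝ, N = ((Fintype.card D).factorial : ℝ) := ⟨_, rfl⟩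
    rw [← hNd] at hN ⊢
    have hy : 0 < ρ / N := div_pos hρ0 hN
    have h1 : ∑ σ ∈ B, Real.negMulLog (p σ) ≤
        ∑ σ ∈ B, (- p σ * Real.log (ρ / N) + (ρ / N - p σ)) :=
      Finset.sum_le_sum fun σ _ => gibbs (hp σ) hy
    have h2 : ∑ σ ∈ B, (- p σ * Real.log (ρ / N) + (ρ / N - p σ)) =
        - ρ * Real.log (ρ / N) + ((B.card : ℝ) * (ρ / N) - ρ) := by
      rw [Finset.sum_add_distrib, Finset.sum_sub_distrib, ← Finset.sum_mul, Finset.sum_neg_distrib,
        Finset.sum_const, nsmul_eq_mul, ← hρ]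
    have h3 : (B.card : ℝ) ≤ N := by
      rw [hNd, ← Fintype.card_perm]
      exact_mod_cast Finset.card_le_univ B
    have h4 : (B.card : ℝ) * (ρ / N) ≤ ρ := by
      calc (B.card : ℝ) * (ρ / N) ≤ N * (ρ / N) := mul_le_mul_of_nonneg_right h3 hy.le
        _ = ρ := by field_simp
    rw [h2, Real.log_div hρ0.ne' hN.ne'] at h1
    linarith
  have hone : Real.negMulLog (p 1) ≤ δ := by
    have hp1' : 0 < p 1 := by linarith
    have := gibbs hp1'.le one_pos
    rw [Real.log_one] at this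
    rw [hδ]; linarith
  have hfin := hsp (fun σ => Real.negMulLog (p σ))
  rw [hfin] at hH
  have hH' : ∑ s, ∑ t, Real.negMulLog (Q s t) ≤ 2 * (Real.negMulLog (p 1) +
      ∑ σ ∈ W, Real.negMulLog (p σ) + ∑ σ ∈ B, Real.negMulLog (p σ)) := hH
  rw [hLHS] at hH'
  nlinarith

theorem e10 : GoalE10 := by
  intro D _ _ p hp hp1 hH
  classical
  by_contra hcon
  rw [not_le] at hcon
  generalize hB' : univ.filter (fun σ : Equiv.Perm D => σ ≠ 1 ∧ ¬ σ.IsSwap) = B at hcon
  have hB : ∀ σ, σ ∈ B ↔ (σ ≠ 1 ∧ ¬ σ.IsSwap) := by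
    intro σ; rw [← hB']; simp
  have hW : ∀ σ, σ ∈ univ.filter (fun σ : Equiv.Perm D => σ.IsSwap) ↔ σ.IsSwap := by
    intro σ; simp
  have hsp := split_sum _ B hW hB p
  rw [hp1] at hsp
  have hN : (0 : ℝ) < (Fintype.card D).factorial := by exact_mod_cast Nat.factorial_pos _
  have hN1 : (1 : ℝ) ≤ (Fintype.card D).factorial := by
    exact_mod_cast Nat.factorial_pos (Fintype.card D)
  have hW0 : 0 ≤ ∑ σ ∈ univ.filter (fun σ : Equiv.Perm D => σ.IsSwap), p σ :=
    Finset.sum_nonneg fun σ _ => hp σ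
  obtain ⟨ρ, hρ⟩ : ∃ ρ, ρ = ∑ σ ∈ B, p σ := ⟨_, rfl⟩
  obtain ⟨δ, hδ⟩ : ∃ δ, δ = 1 - p 1 := ⟨_, rfl⟩
  rw [← hρ, ← hδ] at hcon
  have hδρ : ρ ≤ δ := by rw [hδ, hρ]; linarith
  have hρn : 0 ≤ ρ := by rw [hρ]; exact Finset.sum_nonneg fun σ _ => hp σ
  have hδn : 0 ≤ δ := hρn.trans hδρ
  have hc0 : 0 ≤ Real.exp 2 * (Fintype.card D).factorial * δ ^ (3 / 2 : ℝ) :=
    mul_nonneg (mul_nonneg (Real.exp_pos _).le hN.le) (Real.rpow_nonneg hδn _)
  have hρ0 : 0 < ρ := lt_of_le_of_lt hc0 hcon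
  have hδ0 : 0 < δ := lt_of_lt_of_le hρ0 hδρ
  have hδ1 : δ ≤ 1 := by rw [hδ]; linarith [hp 1]
  have hδe : δ ≤ Real.exp (-1) := by
    by_contra h
    rw [not_le] at h
    have h1 : Real.exp (-(3 / 2)) ≤ δ ^ (3 / 2 : ℝ) := by
      have := Real.rpow_le_rpow (Real.exp_pos _).le h.le (by norm_num : (0 : ℝ) ≤ 3 / 2)
      rw [← Real.exp_mul] at this
      refine le_trans (le_of_eq ?_) this
      norm_num
    have h2 : 1 ≤ Real.exp 2 * Real.exp (-(3 / 2)) := by
      rw [← Real.exp_add]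
      exact Real.one_le_exp (by norm_num)
    have h3 : Real.exp 2 * Real.exp (-(3 / 2)) ≤
        Real.exp 2 * (Fintype.card D).factorial * δ ^ (3 / 2 : ℝ) := by
      calc Real.exp 2 * Real.exp (-(3 / 2)) = Real.exp 2 * 1 * Real.exp (-(3 / 2)) := by ring
        _ ≤ _ := mul_le_mul (mul_le_mul_of_nonneg_left hN1 (Real.exp_pos _).le) h1
          (Real.exp_pos _).le (mul_nonneg (Real.exp_pos _).le hN.le)
    linarith
  have hmain := main_ineq p hp hp1 hH _ B hW hB δ ρ hδ hρ hρ0 hδe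
  have hlog : 2 + Real.log (Fintype.card D).factorial + 3 / 2 * Real.log δ ≤ Real.log ρ := by
    have hc : 0 < Real.exp 2 * (Fintype.card D).factorial * δ ^ (3 / 2 : ℝ) :=
      mul_pos (mul_pos (Real.exp_pos _) hN) (Real.rpow_pos_of_pos hδ0 _)
    have := Real.log_le_log hc hcon.le
    rw [Real.log_mul (mul_pos (Real.exp_pos _) hN).ne' (Real.rpow_pos_of_pos hδ0 _).ne',
      Real.log_mul (Real.exp_pos _).ne' hN.ne', Real.log_exp, Real.log_rpow hδ0] at this
    exact this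
  have h1 : 2 * ρ ≤ (Fintype.card D : ℝ) * δ ^ 2 := by
    nlinarith
  have h2 : δ ^ 2 ≤ δ ^ (3 / 2 : ℝ) := by
    have := Real.rpow_le_rpow_of_exponent_ge hδ0 hδ1 (by norm_num : (3 / 2 : ℝ) ≤ 2)
    rwa [Real.rpow_two] at this
  have h3 : (Fintype.card D : ℝ) ≤ (Fintype.card D).factorial := by
    exact_mod_cast Nat.self_le_factorial _
  have h4 : (Fintype.card D : ℝ) * δ ^ 2 ≤
      Real.exp 2 * (Fintype.card D).factorial * δ ^ (3 / 2 : ℝ) := by
    have e2 : (1 : ℝ) ≤ Real.exp 2 := Real.one_le_exp (by norm_num)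
    calc (Fintype.card D : ℝ) * δ ^ 2 ≤ (Fintype.card D).factorial * δ ^ (3 / 2 : ℝ) :=
          mul_le_mul h3 h2 (by positivity) hN.le
      _ = 1 * (Fintype.card D).factorial * δ ^ (3 / 2 : ℝ) := by ring
      _ ≤ _ := mul_le_mul_of_nonneg_right (mul_le_mul_of_nonneg_right e2 hN.le)
        (Real.rpow_nonneg hδn _)
  linarith

end Pool.Agent.Helper56.OIP
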